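import Mathlib

/-! # Parafree groups, coherence, pronilpotent completion: definitions -/

namespace Pool.Agent.Helper28.Para

universe u v

/-- `lcs G n` is the term `γ_{n+1}(G)` of the lower central series of `G`
(`lcs G 0 = G`, `lcs G (n+1) = [lcs G n, G]`). -/
abbrev lcs (G : Type u) [Group G] (n : ℕ) : Subgroup G := (⊤ : Subgroup G).lowerCentralSeries n

/-- `G` is residually nilpotent and has the same lower central quotients as the free group on
`X`. -/
structure IsParafreeOn (X : Type v) (G : Type u) [Group G] : Prop where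
  resNilpotent : ∀ g : G, (∀ n, g ∈ lcs G n) → g = 1
  quotients : ∀ n, Nonempty (G ⧸ lcs G n ≃* FreeGroup X ⧸ lcs (FreeGroup X) n)

/-- Parafree groups. -/
def IsParafree (G : Type u) [Group G] : Prop := ∃ X : Type u, IsParafreeOn X G

/-- Coherent groups: finitely generated subgroups are finitely presented. -/
def IsCoherent (G : Type u) [Group G] : Prop :=
  ∀ H : Subgroup G, H.FG → Group.IsFinitelyPresented H

/-- The projection `G/γ_{n+2}(G) → G/γ_{n+1}(G)`. -/
def red (G : Type u) [Group G] (n : ℕ) : G ⧸ lcs G (n + 1) →* G ⧸ lcs G n :=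
  QuotientGroup.map _ _ (MonoidHom.id G)
    (fun _ hg => (⊤ : Subgroup G).lowerCentralSeries_antitone (Nat.le_succ n) hg)

/-- The pronilpotent completion of `G`: the inverse limit of the groups `G/γ_n(G)`. -/
def ComplSub (G : Type u) [Group G] : Subgroup (∀ n, G ⧸ lcs G n) where
  carrier := {f | ∀ n, red G n (f (n + 1)) = f n}
  one_mem' := fun n => map_one (red G n)
  mul_mem' := fun {a b} ha hb n => by
    have h1 : red G n (a (n + 1)) = a n := ha n
    have h2 : red G n (b (n + 1)) = b n := hb n
    rw [Pi.mul_apply, Pi.mul_apply, map_mul, h1, h2]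
  inv_mem' := fun {a} ha n => by
    have h1 : red G n (a (n + 1)) = a n := ha n
    rw [Pi.inv_apply, Pi.inv_apply, map_inv, h1]

/-- The pronilpotent completion of the free group of rank two. -/
abbrev F2sub : Type := ComplSub (FreeGroup (Fin 2))

end Pool.Agent.Helper28.Para
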