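import Pool.Agent.Helper28.Para.Calc

/-! # The lower central series of the completion -/

namespace Pool.Agent.Helper28.Para

open Pool.Agent.Helper49.MagnusW
open scoped commutatorElement

universe u v

variable {G : Type u} [Group G]

theorem mk_eq_of_mk_eq {j m : ℕ} (h : j ≤ m) {a b : G}
    (hab : (QuotientGroup.mk a : G ⧸ lcs G m) = QuotientGroup.mk b) :
    (QuotientGroup.mk a : G ⧸ lcs G j) = QuotientGroup.mk b := by
  rw [QuotientGroup.eq] at hab ⊢
  exact lcs_anti h hab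

theorem red_mk (n : ℕ) (a : G) : red G n (QuotientGroup.mk a) = QuotientGroup.mk a := rfl

/-- Compatibility of the coordinates of a point of the completion. -/
theorem compl_mk {f : ∀ n, G ⧸ lcs G n} (hf : f ∈ ComplSub G) {a : G} {j : ℕ} (i : ℕ)
    (h : (QuotientGroup.mk a : G ⧸ lcs G (j + i)) = f (j + i)) :
    (QuotientGroup.mk a : G ⧸ lcs G j) = f j := by
  induction i with
  | zero => exact h
  | succ i ih =>
    apply ih
    have h1 := hf (j + i)
    rw [show j + (i + 1) = j + i + 1 from rfl] at h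
    rw [← h, red_mk] at h1
    exact h1

theorem compl_mk' {f : ∀ n, G ⧸ lcs G n} (hf : f ∈ ComplSub G) {a : G} {j m : ℕ} (hjm : j ≤ m)
    (h : (QuotientGroup.mk a : G ⧸ lcs G m) = f m) :
    (QuotientGroup.mk a : G ⧸ lcs G j) = f j := by
  obtain ⟨i, rfl⟩ := Nat.exists_eq_add_of_le hjm
  exact compl_mk hf i h

/-- The canonical map to the completion. -/
def toCompl (G : Type u) [Group G] : G →* ComplSub G where
  toFun g := ⟨fun _ => QuotientGroup.mk g, fun _ => rfl⟩
  map_one' := rfl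
  map_mul' _ _ := rfl

theorem toCompl_apply (g : G) (n : ℕ) : (toCompl G g).1 n = QuotientGroup.mk g := rfl

/-- The coordinate map. -/
def coord (G : Type u) [Group G] (n : ℕ) : ComplSub G →* G ⧸ lcs G n where
  toFun f := f.1 n
  map_one' := rfl
  map_mul' _ _ := rfl

theorem map_lcs_le {A : Type v} [Group A] (f : A →* G) (n : ℕ) {a : A} (ha : a ∈ lcs A n) :
    f a ∈ lcs G n := by
  have h1 : (lcs A n).map f ≤ lcs G n := by
    unfold lcs
    rw [Subgroup.map_lowerCentralSeries]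
    exact Subgroup.lowerCentralSeries_mono n le_top
  exact h1 ⟨a, ha, rfl⟩

theorem lcs_quot (n : ℕ) : lcs (G ⧸ lcs G n) n = ⊥ := by
  have h1 : (lcs G n).map (QuotientGroup.mk' (lcs G n)) = lcs (G ⧸ lcs G n) n := by
    conv_lhs => enter [2]; unfold lcs
    rw [Subgroup.map_lowerCentralSeries, ← MonoidHom.range_eq_map,
      MonoidHom.range_eq_top.mpr (QuotientGroup.mk'_surjective _)]
  rw [← h1, Subgroup.map_eq_bot_iff, QuotientGroup.ker_mk']

theorem eq_one_of_lcs {A : Type v} [Group A] (n : ℕ) (f : A →* G ⧸ lcs G n) {a : A}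
    (ha : a ∈ lcs A n) : f a = 1 := by
  have h1 := map_lcs_le f n ha
  rwa [lcs_quot, Subgroup.mem_bot] at h1

/-- Sequences of pairs by recursion. -/
theorem exists_seq {α : Type*} (P : ℕ → α → Prop) (R : ℕ → α → α → Prop) (a₀ : α) (h0 : P 0 a₀)
    (hs : ∀ i a, P i a → ∃ b, P (i + 1) b ∧ R i a b) :
    ∃ s : ℕ → α, s 0 = a₀ ∧ (∀ i, P i (s i)) ∧ ∀ i, R i (s i) (s (i + 1)) := by
  classical
  choose! f hf using hs
  refine ⟨fun i => Nat.rec a₀ (fun i a => f i a) i, rfl, ?_, ?_⟩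
  · intro i
    induction i with
    | zero => exact h0
    | succ i ih => exact (hf i _ ih).1
  · intro i
    have : ∀ i, P i (Nat.rec a₀ (fun i a => f i a) i) := by
      intro i
      induction i with
      | zero => exact h0
      | succ i ih => exact (hf i _ ih).1
    exact (hf i _ (this i)).2

/-- The limit of a Cauchy sequence. -/
theorem exists_limit (n : ℕ) (g : ℕ → G) (hg : ∀ i, (g i)⁻¹ * g (i + 1) ∈ lcs G (n + i)) :
    ∃ f : ComplSub G, ∀ j, f.1 j = QuotientGroup.mk (g (j - n)) := by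
  refine ⟨⟨fun j => QuotientGroup.mk (g (j - n)), ?_⟩, fun j => rfl⟩
  intro j
  rw [red_mk]
  rcases Nat.lt_or_ge j n with h | h
  · rw [show j + 1 - n = j - n by omega]
  · rw [show j + 1 - n = (j - n) + 1 by omega]
    symm
    rw [QuotientGroup.eq]
    have := hg (j - n)
    rwa [show n + (j - n) = j by omega] at this

/-- Every element of the completion of a two-generator group which is trivial modulo `γ_{n+2}` is
a product of two commutators with the generators. -/
theorem exists_comm {x y : G} (hxy : Subgroup.closure {x, y} = ⊤) (n : ℕ) (k : ComplSub G)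
    (hk : k.1 (n + 1) = 1) : ∃ g h : ComplSub G, g.1 n = 1 ∧ h.1 n = 1 ∧
      k = ⁅g, toCompl G x⁆ * ⁅h, toCompl G y⁆ := by
  choose w hw using fun i : ℕ => QuotientGroup.mk_surjective (k.1 (n + 1 + i))
  have hwstep : ∀ i, (w i)⁻¹ * w (i + 1) ∈ lcs G (n + 1 + i) := by
    intro i
    rw [← QuotientGroup.eq, hw i]
    exact (compl_mk' k.2 (Nat.le_succ _) (hw (i + 1))).symm
  have hw0 : w 0 ∈ lcs G (n + 1) := by
    have h1 := hw 0
    rw [add_zero, hk] at h1
    exact (QuotientGroup.eq_one_iff _).mp h1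
  obtain ⟨s, hs0, hsP, hsR⟩ := exists_seq
    (fun i (p : G × G) => p.1 ∈ lcs G n ∧ p.2 ∈ lcs G n ∧
      (w i)⁻¹ * (⁅p.1, x⁆ * ⁅p.2, y⁆) ∈ lcs G (n + 1 + i))
    (fun i p p' => p.1⁻¹ * p'.1 ∈ lcs G (n + i) ∧ p.2⁻¹ * p'.2 ∈ lcs G (n + i)) (1, 1)
    ⟨one_mem _, one_mem _, by simpa using hw0⟩
    (by
      rintro i ⟨g, h⟩ ⟨hg, hh, hp⟩
      simp only at hg hh hp
      have hc : (⁅g, x⁆ * ⁅h, y⁆)⁻¹ * w (i + 1) ∈ lcs G (n + i + 1) := by
        have h1 := mul_mem (inv_mem hp) (hwstep i)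
        rw [show n + 1 + i = n + i + 1 by omega] at h1
        have e : ((w i)⁻¹ * (⁅g, x⁆ * ⁅h, y⁆))⁻¹ * ((w i)⁻¹ * w (i + 1)) =
            (⁅g, x⁆ * ⁅h, y⁆)⁻¹ * w (i + 1) := by group
        rwa [e] at h1
      obtain ⟨a, ha, b, hb, hab⟩ := good_of_mem hxy hc
      refine ⟨(g * a, h * b), ⟨mul_mem hg (lcs_anti (Nat.le_add_right _ _) ha),
        mul_mem hh (lcs_anti (Nat.le_add_right _ _) hb), ?_⟩, by simpa using ha, by simpa using hb⟩
      have h1 : (QuotientGroup.mk' (lcs G (n + i + 2))) (⁅g * a, x⁆ * ⁅h * b, y⁆) =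
          (QuotientGroup.mk' (lcs G (n + i + 2))) (w (i + 1)) := by
        have e : w (i + 1) = (⁅g, x⁆ * ⁅h, y⁆) * ((⁅g, x⁆ * ⁅h, y⁆)⁻¹ * w (i + 1)) := by group
        rw [e, map_mul, map_mul, map_mul, hab, bilin_left ha, bilin_left hb]
        have h3 := mk_comm (comm_mem (b := x) ha) ⁅h, y⁆
        simp only [mul_assoc]
        rw [← mul_assoc ((QuotientGroup.mk' (lcs G (n + i + 2))) ⁅a, x⁆), h3]
        simp only [mul_assoc]
      rw [show n + 1 + (i + 1) = n + i + 2 by omega, ← QuotientGroup.ker_mk' (lcs G (n + i + 2)),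
        MonoidHom.mem_ker, map_mul, map_inv]
      simp only
      rw [h1, inv_mul_cancel])
  obtain ⟨g, hg⟩ := exists_limit n (fun i => (s i).1) (fun i => (hsR i).1)
  obtain ⟨h, hh⟩ := exists_limit n (fun i => (s i).2) (fun i => (hsR i).2)
  refine ⟨g, h, ?_, ?_, ?_⟩
  · rw [hg, Nat.sub_self, hs0]; rfl
  · rw [hh, Nat.sub_self, hs0]; rfl
  · apply Subtype.ext
    funext j
    have h1 : (⁅g, toCompl G x⁆ * ⁅h, toCompl G y⁆ : ComplSub G).1 j =
        QuotientGroup.mk (⁅(s (j - n)).1, x⁆ * ⁅(s (j - n)).2, y⁆) := by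
      change coord G j (⁅g, toCompl G x⁆ * ⁅h, toCompl G y⁆) = _
      rw [map_mul, map_commutatorElement, map_commutatorElement]
      change ⁅g.1 j, (QuotientGroup.mk x : G ⧸ lcs G j)⁆ *
        ⁅h.1 j, (QuotientGroup.mk y : G ⧸ lcs G j)⁆ = _
      rw [hg, hh]
      rfl
    rw [h1]
    have h2 : (QuotientGroup.mk (w (j - n)) : G ⧸ lcs G j) = k.1 j :=
      compl_mk' k.2 (by omega) (hw (j - n))
    rw [← h2, QuotientGroup.eq]
    exact lcs_anti (by omega) (hsP (j - n)).2.2

/-- The lower central series of the completion of a two-generator group. -/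
theorem mem_lcs_compl {x y : G} (hxy : Subgroup.closure {x, y} = ⊤) (n : ℕ) :
    ∀ k : ComplSub G, k ∈ lcs (ComplSub G) n ↔ k.1 n = 1 := by
  intro k
  constructor
  · intro hk
    exact eq_one_of_lcs n (coord G n) hk
  · intro hk
    induction n generalizing k with
    | zero => trivial
    | succ n ih =>
      obtain ⟨g, h, hg, hh, rfl⟩ := exists_comm hxy n k hk
      exact mul_mem (comm_mem (ih g hg)) (comm_mem (ih h hh))

end Pool.Agent.Helper28.Para
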