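import Pool.Agent.Helper28.Para.Inject
import Pool.Agent.Helper28.Para.Compl

/-! # Embedding countable subgroups of parafree groups -/

namespace Pool.Agent.Helper28.Para

open Pool.Agent.Helper49.MagnusW
open scoped commutatorElement

universe u v w

/-- Compatible approximations: a parafree group receives a homomorphism from the free group with
all the expected properties. -/
theorem exists_good_hom {X : Type v} {G : Type u} [Group G] (hG : IsParafreeOn X G) :
    ∃ s : FreeGroup X →* G,
      (∀ n w, s w ∈ lcs G n → w ∈ lcs (FreeGroup X) n) ∧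
      (∀ n g, ∃ w, (s w)⁻¹ * g ∈ lcs G n) := by
  set F := FreeGroup X with hF
  have e := fun n => Classical.choice (hG.quotients n)
  set q : ∀ n, G →* F ⧸ lcs F n := fun n => (e n).toMonoidHom.comp (QuotientGroup.mk' _) with hq
  have hqs : ∀ n, Function.Surjective (q n) := fun n =>
    (e n).surjective.comp (QuotientGroup.mk'_surjective _)
  have hqk : ∀ n g, q n g = 1 ↔ g ∈ lcs G n := by
    intro n g
    change (e n) (QuotientGroup.mk g) = 1 ↔ _
    rw [map_eq_one_iff _ (e n).injective]
    exact QuotientGroup.eq_one_iff g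
  choose t ht using fun x : X => hqs 1 (QuotientGroup.mk (FreeGroup.of x))
  set s : F →* G := FreeGroup.lift t with hs
  have hs1 : ∀ w, q 1 (s w) = QuotientGroup.mk w := by
    intro w
    have : (q 1).comp s = QuotientGroup.mk' _ := by
      ext x
      simp only [MonoidHom.comp_apply, hs, FreeGroup.lift_apply_of, ht]
      rfl
    exact DFunLike.congr_fun this w
  have hsurj1 : ∀ g, ∃ w, (s w)⁻¹ * g ∈ lcs G 1 := by
    intro g
    obtain ⟨w, hw⟩ := QuotientGroup.mk_surjective (q 1 g)
    refine ⟨w, ?_⟩
    rw [← hqk, map_mul, map_inv, hs1, hw, inv_mul_cancel]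
  have hinj1 : ∀ w, s w ∈ lcs G 1 → w ∈ lcs F 1 := by
    intro w hw
    rw [← hqk, hs1] at hw
    exact (QuotientGroup.eq_one_iff _).mp hw
  -- comparison at level n
  have main : ∀ n, (∀ w, s w ∈ lcs G (n + 1) → w ∈ lcs F (n + 1)) ∧
      (∀ g, ∃ w, (s w)⁻¹ * g ∈ lcs G (n + 1)) := by
    intro n
    -- projection
    set p : F ⧸ lcs F (n + 1) →* F ⧸ lcs F 1 :=
      QuotientGroup.map _ _ (MonoidHom.id F)
        (fun _ hg => lcs_anti (show 1 ≤ n + 1 by omega) hg) with hp
    have hpmk : ∀ w : F, p (QuotientGroup.mk w) = QuotientGroup.mk w := fun w => rfl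
    have hpq : ∀ g, p (q (n + 1) g) = 1 ↔ g ∈ lcs G 1 := by
      intro g
      constructor
      · intro h
        obtain ⟨w, hw⟩ := QuotientGroup.mk_surjective (q (n + 1) g)
        rw [← hw, hpmk, QuotientGroup.eq_one_iff] at h
        -- `q g` is in the first term of the quotient, hence in the image of the first term
        have h1 : q (n + 1) g ∈ lcs (F ⧸ lcs F (n + 1)) 1 := by
          rw [← hw]
          exact map_lcs_le (QuotientGroup.mk' _) 1 h
        have h2 : lcs (F ⧸ lcs F (n + 1)) 1 = (lcs G 1).map (q (n + 1)) := by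
          conv_rhs => enter [2]; unfold lcs
          rw [Subgroup.map_lowerCentralSeries, ← MonoidHom.range_eq_map,
            MonoidHom.range_eq_top.mpr (hqs (n + 1))]
        rw [h2] at h1
        obtain ⟨a, ha, ha'⟩ := h1
        have h3 : q (n + 1) (a⁻¹ * g) = 1 := by rw [map_mul, map_inv, ha', inv_mul_cancel]
        rw [hqk] at h3
        have h4 := mul_mem ha (lcs_anti (show 1 ≤ n + 1 by omega) h3)
        simpa using h4
      · intro h
        exact eq_one_of_lcs 1 (p.comp (q (n + 1))) h
    choose a ha using fun x : X => QuotientGroup.mk_surjective (q (n + 1) (t x))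
    set α : F →* F := FreeGroup.lift a with hα
    have hα1 : ∀ w, q (n + 1) (s w) = QuotientGroup.mk (α w) := by
      intro w
      have : (q (n + 1)).comp s = (QuotientGroup.mk' _).comp α := by
        ext x
        simp only [MonoidHom.comp_apply, hs, hα, FreeGroup.lift_apply_of]
        exact (ha x).symm
      exact DFunLike.congr_fun this w
    have hαinj : ∀ w, α w ∈ lcs F 1 → w ∈ lcs F 1 := by
      intro w hw
      apply hinj1
      rw [← hpq, hα1, hpmk]
      exact (QuotientGroup.eq_one_iff _).mpr hw
    choose b hb using fun x : X => hqs (n + 1) (QuotientGroup.mk (FreeGroup.of x))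
    choose c hc using fun x : X => hsurj1 (b x)
    set β : F →* F := FreeGroup.lift c with hβ
    have hαβ : ∀ w, w⁻¹ * (α.comp β) w ∈ lcs F 1 := by
      have : (QuotientGroup.mk' (lcs F 1)).comp (α.comp β) = QuotientGroup.mk' (lcs F 1) := by
        ext x
        simp only [MonoidHom.comp_apply, hβ, FreeGroup.lift_apply_of]
        have h1 : p (q (n + 1) ((s (c x))⁻¹ * b x)) = 1 := (hpq _).mpr (hc x)
        rw [map_mul, map_mul, map_inv, map_inv, hα1, hb, hpmk, hpmk, inv_mul_eq_one] at h1
        exact h1
      intro w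
      rw [← QuotientGroup.eq]
      exact (DFunLike.congr_fun this w).symm
    have hβα : ∀ w, w⁻¹ * (β.comp α) w ∈ lcs F 1 := by
      intro w
      apply hαinj
      rw [map_mul, map_inv]
      exact hαβ (α w)
    constructor
    · intro w hw
      rw [← hqk, hα1, QuotientGroup.eq_one_iff] at hw
      exact endo_inj (β.comp α) hβα (n + 1) (map_lcs_le β (n + 1) hw)
    · intro g
      obtain ⟨v, hv⟩ := QuotientGroup.mk_surjective (q (n + 1) g)
      obtain ⟨v', hv'⟩ := endo_surj (α.comp β) hαβ (n + 1) v
      refine ⟨β v', ?_⟩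
      rw [← hqk, map_mul, map_inv, hα1, ← hv]
      exact (QuotientGroup.eq_one_iff _).mpr hv'
  refine ⟨s, ?_, ?_⟩
  · intro n
    cases n with
    | zero => intro w _; trivial
    | succ n => exact (main n).1
  · intro n
    cases n with
    | zero => intro g; exact ⟨1, trivial⟩
    | succ n => exact (main n).2

/-- Every countable subgroup of a parafree group embeds in the pronilpotent completion of the free
group of rank two. -/
theorem exists_embedding {X : Type v} {G : Type u} [Group G] (hG : IsParafreeOn X G)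
    (H : Subgroup G) [hH : Countable H] : ∃ φ : H →* F2sub, Function.Injective φ := by
  classical
  obtain ⟨s, hinj, hsurj⟩ := exists_good_hom hG
  choose W hW using fun (h : H) (n : ℕ) => hsurj n (h : G)
  choose S hSf hS using fun (h : H) (n : ℕ) => exists_finite_Sup (W h n)
  set Y : Set X := ⋃ h : H, ⋃ n : ℕ, S h n with hY
  have hYc : Y.Countable := Set.countable_iUnion fun h => Set.countable_iUnion fun n =>
    (hSf h n).countable
  have hWY : ∀ h n, W h n ∈ Sup Y := fun h n =>
    Sup_mono (Set.subset_iUnion_of_subset h (Set.subset_iUnion_of_subset n subset_rfl)) (hS h n)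
  obtain ⟨j, hj⟩ := Set.countable_iff_exists_injOn.mp hYc
  -- the maps between free groups
  set κ : FreeGroup X →* FreeGroup ℕ := FreeGroup.lift fun x => FreeGroup.of (j x) with hκ
  set κ' : FreeGroup ℕ →* FreeGroup X := FreeGroup.lift fun i =>
    if h : ∃ y ∈ Y, j y = i then FreeGroup.of h.choose else 1 with hκ'
  have hκκ : ∀ w ∈ Sup Y, κ' (κ w) = w := by
    intro w hw
    have := hom_eq_on_Sup (f := κ'.comp κ) (g := MonoidHom.id _) (Y := Y)
      (fun x hx => by
        have h1 : ∃ y ∈ Y, j y = j x := ⟨x, hx, rfl⟩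
        simp only [MonoidHom.comp_apply, hκ, hκ', FreeGroup.lift_apply_of, dif_pos h1,
          MonoidHom.id_apply]
        rw [hj h1.choose_spec.1 hx h1.choose_spec.2]) hw
    exact this
  -- words of products
  have hWmul : ∀ (g h : H) n, (W (g * h) n)⁻¹ * (W g n * W h n) ∈ lcs (FreeGroup X) n := by
    intro g h n
    apply hinj
    have hN : (lcs G n).Normal := inferInstance
    have e1 := hW (g * h) n
    have e2 := hW g n
    have e3 := hW h n
    rw [← QuotientGroup.eq] at e1 e2 e3
    rw [map_mul, map_inv, map_mul, ← QuotientGroup.eq, e1, QuotientGroup.mk_mul, e2, e3]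
    rfl
  have hWstep : ∀ (h : H) n, (W h n)⁻¹ * W h (n + 1) ∈ lcs (FreeGroup X) n := by
    intro h n
    apply hinj
    have e1 := hW h n
    have e2 := lcs_anti (Nat.le_succ n) (hW h (n + 1))
    rw [← QuotientGroup.eq] at e1 e2
    rw [map_mul, map_inv, ← QuotientGroup.eq, e1, e2]
  set ρ : FreeGroup X →* FreeGroup (Fin 2) := elimN.comp κ with hρ
  have hmem : ∀ h : H, (fun n => (QuotientGroup.mk (ρ (W h n)) :
      FreeGroup (Fin 2) ⧸ lcs (FreeGroup (Fin 2)) n)) ∈ ComplSub (FreeGroup (Fin 2)) := by
    intro h n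
    change red _ n (QuotientGroup.mk (ρ (W h (n + 1)))) = QuotientGroup.mk (ρ (W h n))
    rw [red_mk]
    symm
    rw [QuotientGroup.eq, ← map_inv, ← map_mul]
    exact map_lcs_le ρ n (hWstep h n)
  let φ : H →* F2sub := MonoidHom.mk' (fun h => ⟨_, hmem h⟩) (by
    intro g h
    apply Subtype.ext
    funext n
    change (QuotientGroup.mk (ρ (W (g * h) n)) : FreeGroup (Fin 2) ⧸ lcs (FreeGroup (Fin 2)) n) =
      QuotientGroup.mk (ρ (W g n)) * QuotientGroup.mk (ρ (W h n))
    rw [← QuotientGroup.mk_mul, QuotientGroup.eq, ← map_mul, ← map_inv, ← map_mul]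
    exact map_lcs_le ρ n (hWmul g h n))
  refine ⟨φ, ?_⟩
  rw [injective_iff_map_eq_one]
  intro h hh
  have h1 : ∀ n, elimN (κ (W h n)) ∈ lcs (FreeGroup (Fin 2)) n := by
    intro n
    have h2 : (φ h).1 n = 1 := by rw [hh]; rfl
    exact (QuotientGroup.eq_one_iff _).mp h2
  have h2 : ∀ n, κ (W h n) ∈ lcs (FreeGroup ℕ) n :=
    fun n => seq_inj (fun n => κ (W h n))
      (fun n => by
        have h3 := map_lcs_le κ n (hWstep h n)
        rwa [map_mul, map_inv] at h3) h1 n
  apply Subtype.ext
  apply hG.resNilpotent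
  intro n
  have h3 : W h n ∈ lcs (FreeGroup X) n := by
    have h4 := map_lcs_le κ' n (h2 n)
    rwa [hκκ _ (hWY h n)] at h4
  have h4 := mul_mem (map_lcs_le s n h3) (hW h n)
  simpa using h4

end Pool.Agent.Helper28.Para
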