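import Pool.Agent.Helper49.MagnusWeighted
import Pool.Agent.Helper28.Para.Compl

/-! # The completion of a free group of countable rank embeds into the one of rank two -/

namespace Pool.Agent.Helper28.Para

open Pool.Agent.Helper7.Comm Pool.Agent.Helper49.MagnusW
open scoped commutatorElement

/-- Elimination map. -/
def elimK (K : ℕ) : FreeGroup (Unit × Fin K) →* FreeGroup (Fin 2) :=
  FreeGroup.lift fun p => cc (FreeGroup.of 0) (FreeGroup.of 1) p.2.1

theorem elimK_of (K : ℕ) (p : Unit × Fin K) :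
    elimK K (FreeGroup.of p) = cc (FreeGroup.of 0) (FreeGroup.of 1) p.2.1 := by
  simp [elimK]

theorem mag_hμ {X : Type} [DecidableEq X] (ω : X → ℕ) (x : X) :
    OrdGE ω (ω x + 1) ((mag ℚ (FreeGroup.of x) : NC X ℚ) - 1 - NC.letter x) := by
  rw [mag_of]
  have : (1 + NC.letter x - 1 - NC.letter x : NC X ℚ) = 0 := by abel
  rw [this]
  exact OrdGE.zero

theorem mem_lcs_iff {X : Type} [Fintype X] [DecidableEq X] (g : FreeGroup X) (n : ℕ) :
    g ∈ lcs (FreeGroup X) n ↔ OrdGE (fun _ => 1) (n + 1) ((mag ℚ g : NC X ℚ) - 1) := by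
  unfold lcs
  rw [← gam_one_succ]
  exact ⟨fun hg => ordGE_of_mem_gam' (fun _ => one_pos) (mag_hμ _) hg,
    fun hg => magnus_weighted _ (fun _ => one_pos) (mag ℚ) (mag_hμ _) (n + 1) g hg⟩

theorem mag_nil {X : Type} [DecidableEq X] (g : FreeGroup X) : (mag ℚ g : NC X ℚ) [] = 1 :=
  mu_nil (mag_hμ (fun _ => 1)) g

theorem ordGE_of_elim (K N : ℕ) (v : FreeGroup (Unit × Fin K))
    (hv : elimK K v ∈ lcs (FreeGroup (Fin 2)) N) :
    OrdGE (fun p : Unit × Fin K => 1 + p.2.1) (N + 1)
      ((mag ℚ v : NC (Unit × Fin K) ℚ) - 1) := by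
  set n := N + 1 with hn
  set ω : Fin 2 → ℕ := fun _ => 1 with hω
  have hω0 : ∀ x, 0 < ω x := fun _ => one_pos
  set μ : FreeGroup (Fin 2) →* (NC (Fin 2) ℚ)ˣ := mag ℚ with hμdef
  have hμ : ∀ x, OrdGE ω (ω x + 1) ((μ (FreeGroup.of x) : NC (Fin 2) ℚ) - 1 - NC.letter x) :=
    mag_hμ ω
  have hvo : OrdGE ω n ((μ (elimK K v) : NC (Fin 2) ℚ) - 1) := (mem_lcs_iff _ _).1 hv
  set ω' : Unit × Fin K → ℕ := fun p => 1 + p.2.1 with hω'
  set h : Unit × Fin K → NC (Fin 2) ℚ := fun p =>
    (μ (cc (FreeGroup.of 0) (FreeGroup.of 1) p.2.1) : NC (Fin 2) ℚ) - 1 with hh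
  set q : Unit × Fin K → NC (Fin 2) ℚ := fun p => adk 0 1 p.2.1 with hq
  have h10 : (1 : Fin 2) ≠ 0 := by decide
  have h0 : ∀ p, h p [] = 0 := by
    intro p
    simp only [hh, NC.sub_apply, mu_nil hμ, NC.one_nil, sub_self]
  have q0 : ∀ p, q p [] = 0 := fun p => adk_nil h10 p.2.1
  have hho : ∀ p, OrdGE ω (ω' p) (h p) := by
    intro p
    have := mu_cc_ordGE hω0 hμ 0 1 p.2.1
    simpa [hω, hω'] using this
  have hqh : ∀ p, Homog ω (ω' p) (q p) := by
    intro p
    have := homog_adk (R := ℚ) ω 0 1 p.2.1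
    simpa [hω, hω'] using this
  have hqo : ∀ p, OrdGE ω (ω' p) (q p) := fun p => (hqh p).ordGE
  have hhq : ∀ p, OrdGE ω (ω' p + 1) (h p - q p) := by
    intro p
    have := mu_cc hω0 hμ 0 1 p.2.1
    simpa [hω, hω'] using this
  have hΨ : NC.subst h ((mag ℚ v : (NC (Unit × Fin K) ℚ)ˣ) : NC (Unit × Fin K) ℚ) =
      (μ (elimK K v) : NC (Fin 2) ℚ) := by
    have : (Units.map (NC.substHom h h0 : NC (Unit × Fin K) ℚ →* NC (Fin 2) ℚ)).comp (mag ℚ) =
        μ.comp (elimK K) := by
      ext1 p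
      rw [MonoidHom.comp_apply, MonoidHom.comp_apply, elimK_of]
      ext1
      change NC.subst h ((mag ℚ (FreeGroup.of p) : (NC (Unit × Fin K) ℚ)ˣ) :
        NC (Unit × Fin K) ℚ) = _
      rw [mag_of, NC.subst_add h h0, NC.subst_one h h0, NC.subst_letter h h0]
      simp only [hh]
      abel
    have h2 := DFunLike.congr_fun this v
    have h3 := congrArg (fun u : (NC (Fin 2) ℚ)ˣ => (u : NC (Fin 2) ℚ)) h2
    exact h3
  have hΨ1 : NC.subst h (((mag ℚ v : (NC (Unit × Fin K) ℚ)ˣ) : NC (Unit × Fin K) ℚ) - 1) =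
      (μ (elimK K v) : NC (Fin 2) ℚ) - 1 := by
    have := (NC.substHom h h0).map_sub
      ((mag ℚ v : (NC (Unit × Fin K) ℚ)ˣ) : NC (Unit × Fin K) ℚ) 1
    rw [map_one] at this
    change NC.subst h _ = NC.subst h _ - 1 at this
    rw [this, hΨ]
  have hord : ∀ m ≤ n, OrdGE ω' m
      (((mag ℚ v : (NC (Unit × Fin K) ℚ)ˣ) : NC (Unit × Fin K) ℚ) - 1) := by
    intro m
    induction m with
    | zero => intro _ w hw; exact absurd hw (Nat.not_lt_zero _)
    | succ m ih =>
      intro hmn
      have hm := ih (by omega)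
      set F : NC (Unit × Fin K) ℚ :=
        ((mag ℚ v : (NC (Unit × Fin K) ℚ)ˣ) : NC (Unit × Fin K) ℚ) - 1 with hF
      set f : NC (Unit × Fin K) ℚ := ⟨fun w => if wt ω' w = m then F w else 0⟩ with hf
      have hfh : Homog ω' m f := by
        intro w hw
        simp only [hf, NC.mk_apply, if_neg hw]
      have hFf : OrdGE ω' (m + 1) (F - f) := by
        intro w hw
        simp only [NC.sub_apply, hf, NC.mk_apply]
        by_cases hwm : wt ω' w = m
        · rw [if_pos hwm, sub_self]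
        · rw [if_neg hwm, sub_zero]
          exact hm w (by omega)
      have s1 : OrdGE ω (m + 1) (NC.subst h (F - f)) := OrdGE.subst h0 hho (m + 1) _ hFf
      have s2 : OrdGE ω (m + 1) (NC.subst h f - NC.subst q f) :=
        OrdGE.subst_sub h0 q0 hho hqo hhq m f hfh.ordGE
      have s3 : OrdGE ω (m + 1) (NC.subst h F) := by
        rw [hΨ1]; exact hvo.mono hmn
      have s4 : OrdGE ω (m + 1) (NC.subst q f) := by
        have e1 : NC.subst h F = NC.subst h (F - f) + NC.subst h f := by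
          rw [← NC.subst_add h h0, sub_add_cancel]
        have e2 : NC.subst q f = NC.subst h F - NC.subst h (F - f) -
            (NC.subst h f - NC.subst q f) := by
          rw [e1]; abel
        rw [e2]
        exact (s3.sub s1).sub s2
      have s5 : NC.subst q f = 0 := by
        ext w
        by_cases hw : wt ω w = m
        · exact s4 w (by omega)
        · exact Homog.subst q0 hqh m f hfh w hw
      have s6 : f = 0 := by
        refine NC.subst_injective q q0 ?_ f s5
        intro A hA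
        exact adk_indep (0 : Fin 2) (fun _ : Unit => (1 : Fin 2))
          (fun _ _ _ => rfl) (fun _ => h10) K A hA
      rw [s6, sub_zero] at hFf
      exact hFf
  exact hord n le_rfl

/-- Killing letters. -/
theorem kill_apply {X : Type} [Fintype X] [DecidableEq X] (P : X → Prop) [DecidablePred P]
    (w : List X) : ∀ f : NC X ℚ,
    NC.subst (fun k => if P k then (NC.letter k : NC X ℚ) else 0) f w =
      if ∀ x ∈ w, P x then f w else 0 := by
  have h0 : ∀ k : X, (if P k then (NC.letter k : NC X ℚ) else 0) [] = 0 := by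
    intro k
    split_ifs
    · exact NC.letter_nil k
    · rfl
  induction w with
  | nil => intro f; simp [NC.subst_nil]
  | cons a w ih =>
    intro f
    rw [NC.subst_eq _ h0, NC.add_apply, NC.sum_apply, Finset.sum_eq_single a]
    · by_cases ha : P a
      · simp only [if_pos ha, NC.C_cons, zero_add, NC.letter_mul_cons]
        rw [if_pos trivial, ih]
        simp [ha]
      · simp [ha]
    · intro b _ hb
      by_cases hPb : P b
      · simp only [if_pos hPb, NC.letter_mul_cons]
        rw [if_neg (Ne.symm hb)]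
      · simp [if_neg hPb]
    · intro ha
      exact absurd (Finset.mem_univ a) ha

/-- Subgroup generated by a set of letters. -/
def Sup {X : Type*} (Y : Set X) : Subgroup (FreeGroup X) := Subgroup.closure (FreeGroup.of '' Y)

theorem Sup_mono {X : Type*} {Y Z : Set X} (h : Y ⊆ Z) : Sup Y ≤ Sup Z :=
  Subgroup.closure_mono (Set.image_mono h)

theorem hom_eq_on_Sup {X : Type*} {G : Type*} [Group G] {Y : Set X} {f g : FreeGroup X →* G}
    (h : ∀ x ∈ Y, f (FreeGroup.of x) = g (FreeGroup.of x)) {w : FreeGroup X} (hw : w ∈ Sup Y) :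
    f w = g w := by
  have : Sup Y ≤ f.eqLocus g := by
    unfold Sup
    rw [Subgroup.closure_le]
    rintro _ ⟨x, hx, rfl⟩
    exact h x hx
  exact this hw

theorem exists_finite_Sup {X : Type*} (w : FreeGroup X) : ∃ Y : Set X, Y.Finite ∧ w ∈ Sup Y := by
  induction w using FreeGroup.induction_on with
  | C1 => exact ⟨∅, Set.finite_empty, one_mem _⟩
  | of x => exact ⟨{x}, Set.finite_singleton x, Subgroup.subset_closure ⟨x, rfl, rfl⟩⟩
  | inv_of x h =>
    obtain ⟨Y, hY, h⟩ := h
    exact ⟨Y, hY, inv_mem h⟩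
  | mul a b h1 h2 =>
    obtain ⟨Y, hY, h1⟩ := h1
    obtain ⟨Z, hZ, h2⟩ := h2
    exact ⟨Y ∪ Z, hY.union hZ, mul_mem (Sup_mono Set.subset_union_left h1)
      (Sup_mono Set.subset_union_right h2)⟩

theorem exists_bound (w : FreeGroup ℕ) : ∃ M, ∀ K, M ≤ K → w ∈ Sup {i : ℕ | i < K} := by
  obtain ⟨Y, hY, h⟩ := exists_finite_Sup w
  obtain ⟨M, hM⟩ := hY.bddAbove
  refine ⟨M + 1, fun K hK => Sup_mono (fun i hi => ?_) h⟩
  have := hM hi
  simp only [Set.mem_ofPred_eq]
  omega

/-- The embedding of the free group of countable rank into the free group of rank two. -/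
def elimN : FreeGroup ℕ →* FreeGroup (Fin 2) :=
  FreeGroup.lift fun i => cc (FreeGroup.of 0) (FreeGroup.of 1) i

def rK (K : ℕ) : FreeGroup ℕ →* FreeGroup (Unit × Fin K) :=
  FreeGroup.lift fun i => if h : i < K then FreeGroup.of ((), ⟨i, h⟩) else 1

def iK (K : ℕ) : FreeGroup (Unit × Fin K) →* FreeGroup ℕ :=
  FreeGroup.lift fun p => FreeGroup.of p.2.1

theorem iK_rK {K : ℕ} {w : FreeGroup ℕ} (hw : w ∈ Sup {i : ℕ | i < K}) :
    iK K (rK K w) = w := by
  have := hom_eq_on_Sup (f := (iK K).comp (rK K)) (g := MonoidHom.id _) (Y := {i : ℕ | i < K})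
    (fun x hx => by
      have hx' : x < K := hx
      simp [rK, iK, hx']) hw
  exact this

theorem elimK_rK {K : ℕ} {w : FreeGroup ℕ} (hw : w ∈ Sup {i : ℕ | i < K}) :
    elimK K (rK K w) = elimN w := by
  have := hom_eq_on_Sup (f := (elimK K).comp (rK K)) (g := elimN) (Y := {i : ℕ | i < K})
    (fun x hx => by
      have hx' : x < K := hx
      simp [rK, elimK, elimN, hx']) hw
  exact this

/-- Kill the letters at least `M`. -/
def killF (K M : ℕ) : FreeGroup (Unit × Fin K) →* FreeGroup (Unit × Fin K) :=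
  FreeGroup.lift fun p => if p.2.1 < M then FreeGroup.of p else 1

theorem killF_rK {K M : ℕ} {w : FreeGroup ℕ} (hw : w ∈ Sup {i : ℕ | i < M}) :
    killF K M (rK K w) = rK K w := by
  have := hom_eq_on_Sup (f := (killF K M).comp (rK K)) (g := rK K) (Y := {i : ℕ | i < M})
    (fun x hx => by
      have hx' : x < M := hx
      by_cases hK : x < K
      · simp [rK, killF, hx', hK]
      · simp [rK, killF, hK]) hw
  exact this

theorem mag_killF (K M : ℕ) (g : FreeGroup (Unit × Fin K)) :
    (mag ℚ (killF K M g) : NC (Unit × Fin K) ℚ) =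
      NC.subst (fun p : Unit × Fin K => if p.2.1 < M then (NC.letter p : NC (Unit × Fin K) ℚ)
        else 0) (mag ℚ g : NC (Unit × Fin K) ℚ) := by
  set h : Unit × Fin K → NC (Unit × Fin K) ℚ := fun p =>
    if p.2.1 < M then (NC.letter p : NC (Unit × Fin K) ℚ) else 0 with hh
  have h0 : ∀ p, h p [] = 0 := by
    intro p
    simp only [hh]
    split_ifs
    · exact NC.letter_nil p
    · rfl
  have : (Units.map (NC.substHom h h0 : NC (Unit × Fin K) ℚ →* NC (Unit × Fin K) ℚ)).comp
      (mag ℚ) = (mag ℚ).comp (killF K M) := by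
    ext1 p
    rw [MonoidHom.comp_apply, MonoidHom.comp_apply]
    ext1
    change NC.subst h ((mag ℚ (FreeGroup.of p) : (NC (Unit × Fin K) ℚ)ˣ) :
      NC (Unit × Fin K) ℚ) = _
    rw [mag_of, NC.subst_add h h0, NC.subst_one h h0, NC.subst_letter h h0]
    by_cases hp : p.2.1 < M
    · simp [killF, hh, hp, mag_of]
    · simp [killF, hh, hp]
  have h2 := DFunLike.congr_fun this g
  have h3 := congrArg (fun u : (NC (Unit × Fin K) ℚ)ˣ => (u : NC (Unit × Fin K) ℚ)) h2
  exact h3.symm

theorem coeff_killed {K M : ℕ} {w : FreeGroup ℕ} (hw : w ∈ Sup {i : ℕ | i < M})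
    (v : List (Unit × Fin K)) (hv : ¬ ∀ p ∈ v, p.2.1 < M) :
    (mag ℚ (rK K w) : NC (Unit × Fin K) ℚ) v = 0 := by
  rw [← killF_rK (K := K) hw, mag_killF, kill_apply, if_neg hv]

theorem seq_inj (w : ℕ → FreeGroup ℕ) (hw : ∀ n, (w n)⁻¹ * w (n + 1) ∈ lcs (FreeGroup ℕ) n)
    (h : ∀ n, elimN (w n) ∈ lcs (FreeGroup (Fin 2)) n) (k : ℕ) :
    w k ∈ lcs (FreeGroup ℕ) k := by
  have hcong : ∀ j, (w k)⁻¹ * w (k + j) ∈ lcs (FreeGroup ℕ) k := by
    intro j
    induction j with
    | zero => simp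
    | succ j ih =>
      have h1 := (⊤ : Subgroup (FreeGroup ℕ)).lowerCentralSeries_antitone (Nat.le_add_right k j)
        (hw (k + j))
      have h2 := mul_mem ih h1
      have e : (w k)⁻¹ * w (k + j) * ((w (k + j))⁻¹ * w (k + j + 1)) =
          (w k)⁻¹ * w (k + (j + 1)) := by
        rw [← add_assoc]; group
      rwa [e] at h2
  obtain ⟨M, hM⟩ := exists_bound (w k)
  set N := k + k * M with hN
  obtain ⟨M', hM'⟩ := exists_bound (w N)
  set K := max M M' with hK
  have hwk : w k ∈ Sup {i : ℕ | i < K} := hM K (le_max_left _ _)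
  have hwN : w N ∈ Sup {i : ℕ | i < K} := hM' K (le_max_right _ _)
  have hwkM : w k ∈ Sup {i : ℕ | i < M} := hM M le_rfl
  -- the image of `w N` has large weighted order
  have o1 := ordGE_of_elim K N (rK K (w N)) (by rw [elimK_rK hwN]; exact h N)
  -- `w N` and `w k` are congruent
  have o2 : OrdGE (fun _ => 1) (k + 1)
      ((mag ℚ ((rK K (w k))⁻¹ * rK K (w N)) : NC (Unit × Fin K) ℚ) - 1) := by
    rw [← mem_lcs_iff, ← map_inv, ← map_mul]
    have h1 := hcong (k * M)
    rw [← hN] at h1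
    exact map_lcs_le (rK K) k h1
  have o3 : OrdGE (fun _ => 1) (k + 1)
      ((mag ℚ (rK K (w N)) : NC (Unit × Fin K) ℚ) - (mag ℚ (rK K (w k)) : NC (Unit × Fin K) ℚ))
      := by
    have e : (mag ℚ (rK K (w N)) : NC (Unit × Fin K) ℚ) -
        (mag ℚ (rK K (w k)) : NC (Unit × Fin K) ℚ) = (mag ℚ (rK K (w k)) : NC (Unit × Fin K) ℚ) *
          ((mag ℚ ((rK K (w k))⁻¹ * rK K (w N)) : NC (Unit × Fin K) ℚ) - 1) := by
      rw [mul_sub, mul_one, map_mul, map_inv, Units.val_mul, Units.mul_inv_cancel_left]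
    rw [e]
    exact OrdGE.mul_left o2
  have o4 : rK K (w k) ∈ lcs (FreeGroup (Unit × Fin K)) k := by
    rw [mem_lcs_iff]
    intro v hv
    have hlen : v.length < k + 1 := by
      have : wt (fun _ : Unit × Fin K => 1) v = v.length := by simp [wt]
      omega
    by_cases hvM : ∀ p ∈ v, p.2.1 < M
    · have hwt : wt (fun p : Unit × Fin K => 1 + p.2.1) v < N + 1 := by
        have h1 : wt (fun p : Unit × Fin K => 1 + p.2.1) v ≤ v.length * M := by
          clear hv hlen
          induction v with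
          | nil => simp [wt]
          | cons a v ih =>
            rw [wt_cons, List.length_cons]
            have h2 := ih (fun p hp => hvM p (List.mem_cons_of_mem _ hp))
            have h3 := hvM a List.mem_cons_self
            nlinarith
        have h2 : v.length * M ≤ k * M := Nat.mul_le_mul_right M (by omega)
        omega
      have e1 := o1 v hwt
      have e2 := o3 v hv
      rw [NC.sub_apply] at e1 e2 ⊢
      rw [sub_eq_zero] at e2
      rw [← e2]
      exact e1
    · rw [NC.sub_apply, coeff_killed hwkM v hvM]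
      cases v with
      | nil => exact absurd (fun p hp => absurd hp List.not_mem_nil) hvM
      | cons a v => simp
  have o5 := map_lcs_le (iK K) k o4
  rw [iK_rK hwk] at o5
  exact o5

end Pool.Agent.Helper28.Para
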