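import Pool.Agent.Helper49.MagnusGam
import Pool.Agent.Helper28.Para.Defs

/-! # Commutator calculus modulo the lower central series -/

namespace Pool.Agent.Helper28.Para

open Pool.Agent.Helper49.MagnusW
open scoped commutatorElement

universe u v

variable {F : Type u} [Group F]

theorem comm_mem {m : ℕ} {a b : F} (ha : a ∈ lcs F m) : ⁅a, b⁆ ∈ lcs F (m + 1) :=
  Subgroup.commutator_mem_commutator ha (Subgroup.mem_top b)

theorem lcs_anti {m n : ℕ} (h : m ≤ n) : lcs F n ≤ lcs F m :=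
  (⊤ : Subgroup F).lowerCentralSeries_antitone h

/-- Commuting modulo the next term. -/
theorem mk_comm {m : ℕ} {c : F} (hc : c ∈ lcs F (m + 1)) (d : F) :
    (QuotientGroup.mk' (lcs F (m + 2))) c * (QuotientGroup.mk' (lcs F (m + 2))) d =
      (QuotientGroup.mk' (lcs F (m + 2))) d * (QuotientGroup.mk' (lcs F (m + 2))) c := by
  have h1 : ⁅c, d⁆ ∈ lcs F (m + 2) := comm_mem hc
  have h2 : (QuotientGroup.mk' (lcs F (m + 2))) ⁅c, d⁆ = 1 := by
    rw [← MonoidHom.mem_ker, QuotientGroup.ker_mk']; exact h1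
  rw [map_commutatorElement] at h2
  exact commutatorElement_eq_one_iff_mul_comm.mp h2

theorem bilin_left {m : ℕ} {g a b : F} (ha : a ∈ lcs F m) :
    (QuotientGroup.mk' (lcs F (m + 2))) ⁅g * a, b⁆ =
      (QuotientGroup.mk' (lcs F (m + 2))) ⁅g, b⁆ * (QuotientGroup.mk' (lcs F (m + 2))) ⁅a, b⁆ := by
  have e : ⁅g * a, b⁆ = g * ⁅a, b⁆ * (g⁻¹ * ⁅g, b⁆) := by
    simp only [commutatorElement_def]; group
  rw [e, map_mul, map_mul, ← mk_comm (comm_mem ha) g, mul_assoc, ← map_mul, mul_inv_cancel_left,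
    mk_comm (comm_mem ha)]

theorem bilin_right {m : ℕ} {a b c : F} (ha : a ∈ lcs F m) :
    (QuotientGroup.mk' (lcs F (m + 2))) ⁅a, b * c⁆ =
      (QuotientGroup.mk' (lcs F (m + 2))) ⁅a, b⁆ * (QuotientGroup.mk' (lcs F (m + 2))) ⁅a, c⁆ := by
  have e : ⁅a, b * c⁆ = ⁅a, b⁆ * (b * ⁅a, c⁆ * b⁻¹) := by
    simp only [commutatorElement_def]; group
  rw [e, map_mul, map_mul, map_mul, ← mk_comm (comm_mem ha) b, mul_assoc, ← map_mul,
    mul_inv_cancel, map_one, mul_one]

theorem inv_left {m : ℕ} {a b : F} (ha : a ∈ lcs F m) :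
    (QuotientGroup.mk' (lcs F (m + 2))) ⁅a⁻¹, b⁆ =
      ((QuotientGroup.mk' (lcs F (m + 2))) ⁅a, b⁆)⁻¹ := by
  have h := bilin_left (g := a⁻¹) (b := b) ha
  rw [inv_mul_cancel, commutatorElement_one_left, map_one] at h
  exact (eq_inv_of_mul_eq_one_left h.symm)

theorem inv_right {m : ℕ} {a b : F} (ha : a ∈ lcs F m) :
    (QuotientGroup.mk' (lcs F (m + 2))) ⁅a, b⁻¹⁆ =
      ((QuotientGroup.mk' (lcs F (m + 2))) ⁅a, b⁆)⁻¹ := by
  have h := bilin_right (b := b⁻¹) (c := b) ha
  rw [inv_mul_cancel, commutatorElement_one_right, map_one] at h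
  exact (eq_inv_of_mul_eq_one_left h.symm)

/-- Elements that are products of two commutators modulo the next term. -/
def Good (x y : F) (m : ℕ) (c : F) : Prop :=
  ∃ u ∈ lcs F m, ∃ v ∈ lcs F m, (QuotientGroup.mk' (lcs F (m + 2))) c =
    (QuotientGroup.mk' (lcs F (m + 2))) ⁅u, x⁆ * (QuotientGroup.mk' (lcs F (m + 2))) ⁅v, y⁆

theorem Good.mul {x y : F} {m : ℕ} {c d : F} (hc : Good x y m c) (hd : Good x y m d) :
    Good x y m (c * d) := by
  obtain ⟨u, hu, v, hv, h1⟩ := hc
  obtain ⟨u', hu', v', hv', h2⟩ := hd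
  refine ⟨u * u', mul_mem hu hu', v * v', mul_mem hv hv', ?_⟩
  rw [map_mul, h1, h2, bilin_left hu', bilin_left hv']
  have h3 := mk_comm (comm_mem (b := y) hv) ⁅u', x⁆
  simp only [mul_assoc]
  rw [← mul_assoc ((QuotientGroup.mk' (lcs F (m + 2))) ⁅v, y⁆), h3]
  simp only [mul_assoc]

theorem Good.inv {x y : F} {m : ℕ} {c : F} (hc : Good x y m c) :
    Good x y m c⁻¹ := by
  obtain ⟨u, hu, v, hv, h1⟩ := hc
  refine ⟨u⁻¹, inv_mem hu, v⁻¹, inv_mem hv, ?_⟩
  rw [map_inv, h1, inv_left hu, inv_left hv, mul_inv_rev]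
  have h3 := mk_comm (comm_mem (b := x) hu) ⁅v, y⁆
  rw [← mul_inv_rev, ← mul_inv_rev, h3]

/-- In a group generated by two elements, elements of `γ_{m+2}` are products of two commutators
with the generators modulo `γ_{m+3}`. -/
theorem good_of_mem {x y : F} (hxy : Subgroup.closure {x, y} = ⊤) {m : ℕ} {c : F}
    (hc : c ∈ lcs F (m + 1)) : Good x y m c := by
  have key : ∀ a ∈ lcs F m, ∀ b : F, Good x y m ⁅a, b⁆ := by
    intro a ha b
    have hb : b ∈ Subgroup.closure ({x, y} : Set F) := by rw [hxy]; trivial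
    induction hb using Subgroup.closure_induction with
    | mem b hb =>
      rcases hb with rfl | rfl
      · exact ⟨a, ha, 1, one_mem _, by rw [commutatorElement_one_left, map_one, mul_one]⟩
      · exact ⟨1, one_mem _, a, ha, by rw [commutatorElement_one_left, map_one, one_mul]⟩
    | one => exact ⟨1, one_mem _, 1, one_mem _, by
        rw [commutatorElement_one_left, commutatorElement_one_left, commutatorElement_one_right,
          map_one, mul_one]⟩
    | mul b c _ _ h1 h2 =>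
      obtain ⟨u, hu, v, hv, h3⟩ := h1.mul h2
      refine ⟨u, hu, v, hv, ?_⟩
      rw [bilin_right ha, ← map_mul, h3]
    | inv b _ h1 =>
      obtain ⟨u, hu, v, hv, h3⟩ := h1.inv
      refine ⟨u, hu, v, hv, ?_⟩
      rw [inv_right ha, ← map_inv, h3]
  let T : Subgroup F :=
    { carrier := {c | Good x y m c}
      one_mem' := ⟨1, one_mem _, 1, one_mem _, by
        rw [commutatorElement_one_left, commutatorElement_one_left, map_one, mul_one]⟩
      mul_mem' := fun h1 h2 => Good.mul h1 h2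
      inv_mem' := fun h => Good.inv h }
  have hT : lcs F (m + 1) ≤ T := by
    unfold lcs
    rw [Subgroup.lowerCentralSeries_succ, Subgroup.commutator_le]
    intro a ha b _
    exact key a ha b
  exact hT hc

/-- An endomorphism which is the identity on the abelianization is the identity on all the
lower central factors. -/
theorem endo_factor (δ : F →* F) (hδ : ∀ w, w⁻¹ * δ w ∈ lcs F 1) (m : ℕ) :
    ∀ w ∈ lcs F m, w⁻¹ * δ w ∈ lcs F (m + 1) := by
  induction m with
  | zero => exact fun w _ => hδ w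
  | succ m ih =>
    have h : lcs F (m + 1) ≤ ((QuotientGroup.mk' (lcs F (m + 2))).comp δ).eqLocus
        (QuotientGroup.mk' (lcs F (m + 2))) := by
      conv_lhs => unfold lcs
      rw [Subgroup.lowerCentralSeries_succ, Subgroup.commutator_le]
      intro a ha b _
      change (QuotientGroup.mk' (lcs F (m + 2))) (δ ⁅a, b⁆) = _
      obtain ⟨a', ha', h1⟩ : ∃ a' ∈ lcs F (m + 1), δ a = a * a' := ⟨_, ih a ha, by group⟩
      obtain ⟨b', hb', h2⟩ : ∃ b' ∈ lcs F 1, δ b = b * b' := ⟨_, hδ b, by group⟩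
      rw [map_commutatorElement, h1, h2, bilin_left (lcs_anti (Nat.le_succ m) ha'),
        bilin_right ha]
      have h3 : (QuotientGroup.mk' (lcs F (m + 2))) ⁅a', b * b'⁆ = 1 := by
        rw [← MonoidHom.mem_ker, QuotientGroup.ker_mk']; exact comm_mem ha'
      have h4 : (QuotientGroup.mk' (lcs F (m + 2))) ⁅a, b'⁆ = 1 := by
        rw [← MonoidHom.mem_ker, QuotientGroup.ker_mk']
        have := lcs_comm (G := F) 1 m (Subgroup.commutator_mem_commutator ha hb')
        rwa [show m + 1 + 1 = m + 2 by omega] at this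
      rw [h3, h4, mul_one, mul_one]
    intro w hw
    have h1 := h hw
    change (QuotientGroup.mk' (lcs F (m + 2))) (δ w) = (QuotientGroup.mk' (lcs F (m + 2))) w at h1
    rw [← QuotientGroup.ker_mk' (lcs F (m + 1 + 1)), MonoidHom.mem_ker, map_mul, map_inv]
    rw [show m + 1 + 1 = m + 2 by omega, h1, inv_mul_cancel]

theorem endo_inj (δ : F →* F) (hδ : ∀ w, w⁻¹ * δ w ∈ lcs F 1) (n : ℕ) {w : F}
    (hw : δ w ∈ lcs F n) : w ∈ lcs F n := by
  have : ∀ m ≤ n, w ∈ lcs F m := by
    intro m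
    induction m with
    | zero => intro _; trivial
    | succ m ih =>
      intro hm
      have h1 := endo_factor δ hδ m w (ih (by omega))
      have h2 := lcs_anti hm hw
      have e : w = δ w * (w⁻¹ * δ w)⁻¹ := by group
      rw [e]
      exact mul_mem h2 (inv_mem h1)
  exact this n le_rfl

theorem endo_surj (δ : F →* F) (hδ : ∀ w, w⁻¹ * δ w ∈ lcs F 1) (n : ℕ) (w : F) :
    ∃ v, (δ v)⁻¹ * w ∈ lcs F n := by
  induction n with
  | zero => exact ⟨1, trivial⟩
  | succ n ih =>
    obtain ⟨v, hv⟩ := ih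
    refine ⟨v * ((δ v)⁻¹ * w), ?_⟩
    have h1 := endo_factor δ hδ n _ hv
    have e : (δ (v * ((δ v)⁻¹ * w)))⁻¹ * w =
        (((δ v)⁻¹ * w)⁻¹ * δ ((δ v)⁻¹ * w))⁻¹ := by
      rw [map_mul δ v]; group
    rw [e]
    exact inv_mem h1

end Pool.Agent.Helper28.Para
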