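import Pool.Agent.Helper28.Para.Embed

/-! # Countable parafree subgroups of the completion -/

namespace Pool.Agent.Helper28.Para

open scoped commutatorElement

universe u v w

/-- Terms. -/
inductive Tm : Type
  | c : ℕ → Tm
  | mul : Tm → Tm → Tm
  | inv : Tm → Tm
  | f1 : ℕ → Tm → Tm
  | f2 : ℕ → Tm → Tm
  deriving Countable

/-- Evaluation of terms. -/
def Tm.ev {G : Type*} [Group G] (e : ℕ → G) (φ ψ : ℕ → G → G) : Tm → G
  | .c i => e i
  | .mul a b => a.ev e φ ψ * b.ev e φ ψ
  | .inv a => (a.ev e φ ψ)⁻¹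
  | .f1 n a => φ n (a.ev e φ ψ)
  | .f2 n a => ψ n (a.ev e φ ψ)

/-- Countable subgroups closed under countably many unary operations. -/
theorem exists_closed {G : Type*} [Group G] (C : Set G) (hC : C.Countable) (φ ψ : ℕ → G → G) :
    ∃ P : Subgroup G, Countable P ∧ C ⊆ P ∧ (∀ n, ∀ g ∈ P, φ n g ∈ P) ∧
      (∀ n, ∀ g ∈ P, ψ n g ∈ P) := by
  obtain ⟨e, he⟩ := (hC.insert 1).exists_eq_range ⟨1, Set.mem_insert 1 C⟩
  let P : Subgroup G :=
    { carrier := Set.range (Tm.ev e φ ψ)
      one_mem' := ⟨.mul (.c 0) (.inv (.c 0)), by simp [Tm.ev]⟩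
      mul_mem' := by
        rintro _ _ ⟨a, rfl⟩ ⟨b, rfl⟩
        exact ⟨.mul a b, rfl⟩
      inv_mem' := by
        rintro _ ⟨a, rfl⟩
        exact ⟨.inv a, rfl⟩ }
  refine ⟨P, (Set.countable_range (Tm.ev e φ ψ)).to_subtype, ?_, ?_, ?_⟩
  · intro g hg
    have h1 : g ∈ Set.range e := by rw [← he]; exact Set.mem_insert_of_mem _ hg
    obtain ⟨i, rfl⟩ := h1
    exact ⟨.c i, rfl⟩
  · rintro n _ ⟨a, rfl⟩
    exact ⟨.f1 n a, rfl⟩
  · rintro n _ ⟨a, rfl⟩
    exact ⟨.f2 n a, rfl⟩

theorem closure_two : Subgroup.closure {FreeGroup.of (0 : Fin 2), FreeGroup.of 1} = ⊤ := by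
  have h : ({FreeGroup.of (0 : Fin 2), FreeGroup.of 1} : Set (FreeGroup (Fin 2))) =
      Set.range FreeGroup.of := by
    ext g
    simp only [Set.mem_insert_iff, Set.mem_singleton_iff, Set.mem_range, Fin.exists_fin_two]
    tauto
  rw [h, FreeGroup.closure_range_of]

/-- A subgroup of the completion, containing the free group and in which the elements of each
term of the filtration are products of commutators in the expected way, is parafree. -/
theorem parafree_of_closed (P : Subgroup F2sub) (φ ψ : ℕ → F2sub → F2sub)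
    (hφ : ∀ n k, k.1 (n + 1) = 1 → (φ n k).1 n = 1 ∧ (ψ n k).1 n = 1 ∧
      k = ⁅φ n k, toCompl _ (FreeGroup.of 0)⁆ * ⁅ψ n k, toCompl _ (FreeGroup.of 1)⁆)
    (hx : toCompl _ (FreeGroup.of 0) ∈ P) (hy : toCompl _ (FreeGroup.of 1) ∈ P)
    (h1 : ∀ n, ∀ g ∈ P, φ n g ∈ P) (h2 : ∀ n, ∀ g ∈ P, ψ n g ∈ P) :
    IsParafreeOn (Fin 2) P := by
  have hlcs : ∀ n, ∀ p : P, p ∈ lcs P n ↔ (p : F2sub).1 n = 1 := by
    intro n p
    constructor
    · intro hp
      exact eq_one_of_lcs n ((coord _ n).comp P.subtype) hp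
    · intro hp
      induction n generalizing p with
      | zero => trivial
      | succ n ih =>
        obtain ⟨e1, e2, e3⟩ := hφ n p hp
        have e4 : p = ⁅(⟨φ n p, h1 n p p.2⟩ : P), (⟨_, hx⟩ : P)⁆ *
            ⁅(⟨ψ n p, h2 n p p.2⟩ : P), (⟨_, hy⟩ : P)⁆ := Subtype.ext e3
        rw [e4]
        exact mul_mem (comm_mem (ih _ e1)) (comm_mem (ih _ e2))
  refine ⟨?_, ?_⟩
  · intro g hg
    apply Subtype.ext
    apply Subtype.ext
    funext n
    exact (hlcs n g).1 (hg n)
  · intro n
    set π : P →* FreeGroup (Fin 2) ⧸ lcs (FreeGroup (Fin 2)) n := (coord _ n).comp P.subtype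
      with hπ
    have hker : π.ker = lcs P n := by
      ext p
      rw [MonoidHom.mem_ker, hlcs]
      rfl
    have hF : ∀ w : FreeGroup (Fin 2), toCompl _ w ∈ P := by
      intro w
      have h3 : Subgroup.closure {FreeGroup.of (0 : Fin 2), FreeGroup.of 1} ≤
          P.comap (toCompl _) := by
        rw [Subgroup.closure_le]
        rintro _ (rfl | rfl)
        · exact hx
        · exact hy
      exact h3 (closure_two.ge (Subgroup.mem_top w))
    have hsurj : Function.Surjective π := by
      intro a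
      obtain ⟨w, rfl⟩ := QuotientGroup.mk_surjective a
      exact ⟨⟨toCompl _ w, hF w⟩, rfl⟩
    exact ⟨(QuotientGroup.quotientMulEquivOfEq hker.symm).trans
      (QuotientGroup.quotientKerEquivOfSurjective π hsurj)⟩

theorem exists_ops : ∃ φ ψ : ℕ → F2sub → F2sub, ∀ n k, k.1 (n + 1) = 1 →
    (φ n k).1 n = 1 ∧ (ψ n k).1 n = 1 ∧
      k = ⁅φ n k, toCompl _ (FreeGroup.of 0)⁆ * ⁅ψ n k, toCompl _ (FreeGroup.of 1)⁆ := by
  have := fun (n : ℕ) (k : F2sub) (hk : k.1 (n + 1) = 1) => exists_comm closure_two n k hk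
  choose! φ ψ h1 h2 h3 using this
  exact ⟨φ, ψ, fun n k hk => ⟨h1 n k hk, h2 n k hk, h3 n k hk⟩⟩

/-- Countable subsets of the completion lie in countable parafree subgroups of rank two. -/
theorem exists_countable_parafree (C : Set F2sub) (hC : C.Countable) :
    ∃ P : Subgroup F2sub, Countable P ∧ C ⊆ P ∧ (toCompl (FreeGroup (Fin 2))).range ≤ P ∧
      IsParafreeOn (Fin 2) P := by
  obtain ⟨φ, ψ, h⟩ := exists_ops
  obtain ⟨P, hP, hCP, h1, h2⟩ := exists_closed
    (insert (toCompl _ (FreeGroup.of 0)) (insert (toCompl _ (FreeGroup.of 1)) C))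
    ((hC.insert _).insert _) φ ψ
  refine ⟨P, hP, fun g hg => hCP (Set.mem_insert_of_mem _ (Set.mem_insert_of_mem _ hg)), ?_,
    parafree_of_closed P φ ψ h (hCP (Set.mem_insert _ _))
      (hCP (Set.mem_insert_of_mem _ (Set.mem_insert _ _))) h1 h2⟩
  rintro _ ⟨w, rfl⟩
  have h3 : Subgroup.closure {FreeGroup.of (0 : Fin 2), FreeGroup.of 1} ≤
      P.comap (toCompl _) := by
    rw [Subgroup.closure_le]
    rintro _ (rfl | rfl)
    · exact hCP (Set.mem_insert _ _)
    · exact hCP (Set.mem_insert_of_mem _ (Set.mem_insert _ _))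
  exact h3 (closure_two.ge (Subgroup.mem_top w))

/-- The completion is parafree. -/
theorem parafree_completion : IsParafreeOn (Fin 2) F2sub := by
  refine ⟨?_, ?_⟩
  · intro g hg
    apply Subtype.ext
    funext n
    exact (mem_lcs_compl closure_two n g).1 (hg n)
  · intro n
    have hker : (coord (FreeGroup (Fin 2)) n).ker = lcs F2sub n := by
      ext p
      rw [MonoidHom.mem_ker, mem_lcs_compl closure_two]
      rfl
    have hsurj : Function.Surjective (coord (FreeGroup (Fin 2)) n) := by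
      intro a
      obtain ⟨w, rfl⟩ := QuotientGroup.mk_surjective a
      exact ⟨toCompl _ w, rfl⟩
    exact ⟨(QuotientGroup.quotientMulEquivOfEq hker.symm).trans
      (QuotientGroup.quotientKerEquivOfSurjective _ hsurj)⟩

/-! ## Invariance -/

theorem parafree_congr {X : Type w} {A : Type u} {B : Type v} [Group A] [Group B] (e : A ≃* B)
    (hA : IsParafreeOn X A) : IsParafreeOn X B := by
  refine ⟨?_, ?_⟩
  · intro g hg
    have h1 : e.symm g = 1 := hA.resNilpotent _ (fun n => by
      have h2 : (lcs B n).map e.symm.toMonoidHom ≤ lcs A n := by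
        unfold lcs
        rw [Subgroup.map_lowerCentralSeries]
        exact Subgroup.lowerCentralSeries_mono n le_top
      exact h2 ⟨g, hg n, rfl⟩)
    exact (map_eq_one_iff _ e.symm.injective).mp h1
  · intro n
    obtain ⟨f⟩ := hA.quotients n
    refine ⟨(QuotientGroup.congr (lcs B n) (lcs A n) e.symm ?_).trans f⟩
    unfold lcs
    change Subgroup.map e.symm.toMonoidHom _ = _
    rw [Subgroup.map_lowerCentralSeries, ← MonoidHom.range_eq_map,
      MonoidHom.range_eq_top.mpr e.symm.surjective]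

theorem parafree_rank_congr {X : Type w} {Y : Type v} {A : Type u} [Group A] (e : X ≃ Y)
    (hA : IsParafreeOn X A) : IsParafreeOn Y A := by
  refine ⟨hA.resNilpotent, ?_⟩
  intro n
  obtain ⟨f⟩ := hA.quotients n
  refine ⟨f.trans (QuotientGroup.congr _ _ (FreeGroup.freeGroupCongr e) ?_)⟩
  unfold lcs
  change Subgroup.map (FreeGroup.freeGroupCongr e).toMonoidHom _ = _
  have h1 : (FreeGroup.freeGroupCongr e).toMonoidHom.range = ⊤ :=
    MonoidHom.range_eq_top.mpr (FreeGroup.freeGroupCongr e).surjective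
  rw [Subgroup.map_lowerCentralSeries, ← MonoidHom.range_eq_map, h1]

theorem fp_of_embed {A : Type u} [Group A] {B : Type v} [Group B] (hB : IsCoherent B)
    {H : Subgroup A} (hH : H.FG) (φ : H →* B) (hφ : Function.Injective φ) :
    Group.IsFinitelyPresented H := by
  have hfg : φ.range.FG := by
    have := (Group.fg_iff_subgroup_fg H).mpr hH
    exact (Group.fg_iff_subgroup_fg _).mp (Group.fg_range φ)
  have := hB φ.range hfg
  exact Group.IsFinitelyPresented.equiv (MonoidHom.ofInjective hφ).symm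

/-- Coherence passes to groups all whose finitely generated subgroups embed. -/
theorem coherent_of_embed {A : Type u} [Group A] {B : Type v} [Group B] (hB : IsCoherent B)
    (h : ∀ H : Subgroup A, H.FG → ∃ φ : H →* B, Function.Injective φ) : IsCoherent A := by
  intro H hH
  obtain ⟨φ, hφ⟩ := h H hH
  exact fp_of_embed hB hH φ hφ

theorem countable_freeGroup (α : Type*) [Countable α] : Countable (FreeGroup α) :=
  Function.Surjective.countable (f := (FreeGroup.mk : List (α × Bool) → FreeGroup α))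
    Quot.mk_surjective

theorem countable_of_fg {A : Type u} [Group A] {H : Subgroup A} (hH : H.FG) : Countable H := by
  obtain ⟨S, rfl⟩ := hH
  have h1 : Subgroup.closure (S : Set A) = (FreeGroup.lift (fun x : S => (x : A))).range := by
    rw [FreeGroup.range_lift_eq_closure]
    congr 1
    ext x
    simp
  rw [h1]
  have := countable_freeGroup S
  exact (Set.countable_range (FreeGroup.lift (fun x : S => (x : A)))).to_subtype

end Pool.Agent.Helper28.Para
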