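import Pool.Agent.Helper28.Para.Count

/-! # Short definitions for the statement -/

namespace Pool.Agent.Helper28.Para

universe u v

/-- The pronilpotent completion of `G`: the inverse limit of the groups `G/γ_n(G)`. -/
def Completion (G : Type u) [Group G] : Type u := ComplSub G

instance instGroupCompletion (G : Type u) [Group G] : Group (Completion G) :=
  inferInstanceAs (Group (ComplSub G))

/-- The pronilpotent completion of the free group of rank two. -/
def F2hat : Type := Completion (FreeGroup (Fin 2))

instance instGroupF2hat : Group F2hat := inferInstanceAs (Group (Completion (FreeGroup (Fin 2))))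

/-- The image of an element of the free group of rank two in its completion. -/
def ofFree (w : FreeGroup (Fin 2)) : F2hat := ⟨fun _ => QuotientGroup.mk w, fun _ => rfl⟩

/-- There is an injective homomorphism from `H` to `K`. -/
def Embeds (H : Type u) (K : Type v) [Group H] [Group K] : Prop :=
  ∃ φ : H →* K, Function.Injective φ

/-- `P` is a countable parafree group of rank two between the free group of rank two and its
completion. -/
def IsBetween (P : Subgroup F2hat) : Prop :=
  Countable P ∧ (∀ w, ofFree w ∈ P) ∧ IsParafreeOn (Fin 2) P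

theorem F2hat_parafree : IsParafreeOn (Fin 2) F2hat := parafree_completion

theorem embed_between {X : Type v} {G : Type u} [Group G] (hG : IsParafreeOn X G)
    (H : Subgroup G) (hH : Countable H) : ∃ P : Subgroup F2hat, IsBetween P ∧ Embeds H P := by
  obtain ⟨φ, hφ⟩ := exists_embedding hG H
  obtain ⟨P, hP, hC, hF, hpar⟩ := exists_countable_parafree (Set.range φ) (Set.countable_range φ)
  refine ⟨P, ⟨hP, fun w => hF ⟨w, rfl⟩, hpar⟩, φ.codRestrict P (fun h => hC ⟨h, rfl⟩), ?_⟩
  intro a b hab
  exact hφ (congrArg (fun x : P => (x : F2sub)) hab)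

theorem coherent_ulift (h : ∀ (G : Type u) [Group G], IsParafree G → IsCoherent G) :
    IsCoherent F2hat := by
  have h1 : IsParafreeOn (Fin 2) (ULift.{u} F2hat) :=
    parafree_congr MulEquiv.ulift.symm F2hat_parafree
  have h2 : IsParafreeOn (ULift.{u} (Fin 2)) (ULift.{u} F2hat) :=
    parafree_rank_congr Equiv.ulift.symm h1
  have h3 : IsCoherent (ULift.{u} F2hat) := h _ ⟨_, h2⟩
  refine coherent_of_embed h3 (fun H _ => ?_)
  exact ⟨(MulEquiv.ulift.symm.toMonoidHom : F2hat →* ULift.{u} F2hat).comp H.subtype,
    MulEquiv.ulift.symm.injective.comp H.subtype_injective⟩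

theorem coherent_of_F2hat (h : IsCoherent F2hat) {X : Type v} {G : Type u} [Group G]
    (hG : IsParafreeOn X G) : IsCoherent G := by
  refine coherent_of_embed h (fun H hH => ?_)
  have := countable_of_fg hH
  exact exists_embedding hG H

theorem F2hat_coherent (h : ∀ P : Subgroup F2hat, IsBetween P → IsCoherent P) :
    IsCoherent F2hat := by
  intro H hH
  have hc := countable_of_fg hH
  obtain ⟨P, hP, hC, hF, hpar⟩ := exists_countable_parafree (H : Set F2hat)
    (Set.countable_coe_iff.mp hc)
  exact fp_of_embed (h P ⟨hP, fun w => hF ⟨w, rfl⟩, hpar⟩) hH (Subgroup.inclusion hC)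
    (Subgroup.inclusion_injective hC)

end Pool.Agent.Helper28.Para
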